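import Pool.Agent.Helper85.PCP.Stmts

/-!
# PCP(4): two-number machines simulate Turing machines (module AMTM)
-/

namespace PCP4

open Turing

/-- abstract step of a two-number machine with states of type `T` -/
def AMTM_g {T : Type} (k : ℕ) (δ : T → ℕ → T × Bool × Bool × ℕ) (c : T × ℕ × ℕ) : T × ℕ × ℕ :=
  ((δ c.1 (c.2.2 % k)).1,
    if (δ c.1 (c.2.2 % k)).2.1 then c.2.2 else c.2.2 / k,
    (if (δ c.1 (c.2.2 % k)).2.2.1 then k * c.2.1 else c.2.1) + (δ c.1 (c.2.2 % k)).2.2.2)

theorem AMTM_table {T : Type} [Fintype T] (k : ℕ) (hk : 2 ≤ k)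
    (δ : T → ℕ → T × Bool × Bool × ℕ) (hf : ∀ t, ∀ r < k, (δ t r).2.2.2 < k)
    (hc : k ≤ Fintype.card T) (t0 th : T) :
    ∃ (Q0 q0 qh : ℕ) (tab : List (ℕ × Bool × Bool × ℕ)), AOk k Q0 q0 qh tab ∧
      ∀ n : ℕ, (AHalt k Q0 q0 qh tab (q0, n, 0) ↔
        ∃ t, ((AMTM_g k δ)^[t] (t0, n, 0)).1 = th) := by
  classical
  obtain ⟨num, inv, hnum, hinv⟩ : ∃ (num : T → ℕ) (inv : ℕ → T),
      (∀ t, num t < Fintype.card T) ∧ ∀ t, inv (num t) = t := by
    refine ⟨fun t => (Fintype.equivFin T t : ℕ), fun i => if h : i < Fintype.card T then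
      (Fintype.equivFin T).symm ⟨i, h⟩ else t0, fun t => (Fintype.equivFin T t).2, ?_⟩
    intro t
    simp
  have hinj : Function.Injective num := by
    intro a b h
    rw [← hinv a, ← hinv b, h]
  set Q0 := Fintype.card T with hQ0
  set tab : List (ℕ × Bool × Bool × ℕ) := (List.range (Q0 * k)).map
    (fun i => (num (δ (inv (i / k)) (i % k)).1, (δ (inv (i / k)) (i % k)).2)) with htab
  have hdl : ∀ q < Q0, ∀ r < k, dlt k Q0 (num t0) tab q r =
      (num (δ (inv q) r).1, (δ (inv q) r).2) := by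
    intro q hq r hr
    have h1 : q * k + r < Q0 * k := by
      have : (q + 1) * k ≤ Q0 * k := Nat.mul_le_mul_right k hq
      nlinarith
    have h2 : (q * k + r) / k = q := by
      rw [Nat.add_comm, Nat.mul_comm, Nat.add_mul_div_left _ _ (by omega), Nat.div_eq_of_lt hr]
      omega
    have h3 : (q * k + r) % k = r := by
      rw [Nat.add_comm, Nat.mul_comm, Nat.add_mul_mod_self_left, Nat.mod_eq_of_lt hr]
    unfold dlt
    rw [if_pos hq, htab, List.getD_eq_getElem?_getD, List.getElem?_map, List.getElem?_range h1]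
    simp [h2, h3]
  refine ⟨Q0, num t0, num th, tab, ⟨hk, hc, hnum _, hnum _, ?_⟩, ?_⟩
  · intro q hq r hr
    rw [hdl q hq r hr]
    exact ⟨hnum _, hf _ _ hr⟩
  · have hstep : ∀ c : T × ℕ × ℕ, astep k (dlt k Q0 (num t0) tab) (num c.1, c.2) =
        (num (AMTM_g k δ c).1, (AMTM_g k δ c).2) := by
      intro c
      have h := hdl (num c.1) (hnum _) (c.2.2 % k) (Nat.mod_lt _ (by omega))
      rw [hinv] at h
      unfold astep AMTM_g
      simp only [h]
    have hit : ∀ t : ℕ, ∀ c : T × ℕ × ℕ, (astep k (dlt k Q0 (num t0) tab))^[t] (num c.1, c.2) =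
        (num ((AMTM_g k δ)^[t] c).1, ((AMTM_g k δ)^[t] c).2) := by
      intro t
      induction t with
      | zero => intro c; rfl
      | succ t ih =>
        intro c
        rw [Function.iterate_succ_apply, Function.iterate_succ_apply, hstep, ih]
    intro n
    unfold AHalt
    constructor
    · rintro ⟨t, ht⟩
      refine ⟨t, ?_⟩
      rw [hit t (t0, n, 0)] at ht
      exact hinj ht
    · rintro ⟨t, ht⟩
      refine ⟨t, ?_⟩
      rw [hit t (t0, n, 0)]
      exact congrArg num ht

/-- step function of type `σ → Option σ`, stopping when the next state is `th` -/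
noncomputable def AMTM_f {σ : Type} (g : σ → σ) (P : σ → Prop) (c : σ) : Option σ :=
  haveI := Classical.propDecidable (P (g c))
  if P (g c) then none else some (g c)

theorem AMTM_f_none {σ : Type} {g : σ → σ} {P : σ → Prop} {c : σ} :
    AMTM_f g P c = none ↔ P (g c) := by
  unfold AMTM_f
  split_ifs with h <;> simp [h]

theorem AMTM_f_some {σ : Type} {g : σ → σ} {P : σ → Prop} {c : σ} (h : ¬ P (g c)) :
    AMTM_f g P c = some (g c) := by
  unfold AMTM_f
  rw [if_neg h]

theorem AMTM_dom {σ : Type} (g : σ → σ) (P : σ → Prop) (c : σ) :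
    (StateTransition.eval (AMTM_f g P) c).Dom ↔ ∃ t : ℕ, P (g^[t + 1] c) := by
  constructor
  · intro h
    obtain ⟨b, hb⟩ := Part.dom_iff_mem.1 h
    obtain ⟨h1, h2⟩ := StateTransition.mem_eval.1 hb
    have h3 : ∀ x, StateTransition.Reaches (AMTM_f g P) c x → ∃ t : ℕ, g^[t] c = x := by
      intro x hx
      induction hx with
      | refl => exact ⟨0, rfl⟩
      | @tail x y hx hxy ih =>
        obtain ⟨t, ht⟩ := ih
        refine ⟨t + 1, ?_⟩
        rw [Function.iterate_succ_apply', ht]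
        by_cases hp : P (g x)
        · rw [AMTM_f_none.2 hp] at hxy
          cases hxy
        · rw [AMTM_f_some hp] at hxy
          exact Option.some_injective _ hxy
    obtain ⟨t, ht⟩ := h3 b h1
    refine ⟨t, ?_⟩
    rw [Function.iterate_succ_apply', ht]
    exact AMTM_f_none.1 h2
  · rintro ⟨t, ht⟩
    classical
    have hex : ∃ t : ℕ, P (g^[t + 1] c) := ⟨t, ht⟩
    have hm := Nat.find_spec hex
    have hmin := fun s (hs : s < Nat.find hex) => Nat.find_min hex hs
    have hr : ∀ s ≤ Nat.find hex, StateTransition.Reaches (AMTM_f g P) c (g^[s] c) := by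
      intro s
      induction s with
      | zero => intro _; exact Relation.ReflTransGen.refl
      | succ s ih =>
        intro hs
        refine Relation.ReflTransGen.tail (ih (by omega)) ?_
        have h1 := hmin s (by omega)
        rw [Function.iterate_succ_apply'] at h1 ⊢
        exact AMTM_f_some h1
    refine Part.dom_iff_mem.2 ⟨g^[Nat.find hex] c, StateTransition.mem_eval.2 ⟨hr _ le_rfl, ?_⟩⟩
    rw [AMTM_f_none]
    rw [Function.iterate_succ_apply'] at hm
    exact hm

/-! ## Numbers of half tapes -/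

theorem AMTM_codeL_rep (k : ℕ) (l : List ℕ) (n : ℕ) :
    codeL k (l ++ List.replicate n 0) = codeL k l := by
  have h0 : ∀ n : ℕ, codeL k (List.replicate n 0) = 0 := by
    intro n
    induction n with
    | zero => rfl
    | succ n ih =>
      rw [List.replicate_succ]
      change k * codeL k (List.replicate n 0) + 0 = 0
      rw [ih]
      simp
  induction l with
  | nil => exact h0 n
  | cons a l ih =>
    change k * codeL k (l ++ List.replicate n 0) + a = k * codeL k l + a
    rw [ih]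

section

variable {Γ : Type} [Inhabited Γ]

/-- number of a half tape -/
def AMTM_cB (k : ℕ) (enc : Γ → ℕ) (h0 : enc default = 0) (L : ListBlank Γ) : ℕ :=
  L.liftOn (fun l => codeL k (l.map enc)) (by
    rintro a _ ⟨i, rfl⟩
    rw [List.map_append, List.map_replicate, h0, AMTM_codeL_rep])

theorem AMTM_cB_mk (k : ℕ) (enc : Γ → ℕ) (h0 : enc default = 0) (l : List Γ) :
    AMTM_cB k enc h0 (ListBlank.mk l) = codeL k (l.map enc) := rfl

theorem AMTM_cB_cons (k : ℕ) (enc : Γ → ℕ) (h0 : enc default = 0) (a : Γ) (L : ListBlank Γ) :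
    AMTM_cB k enc h0 (L.cons a) = k * AMTM_cB k enc h0 L + enc a := by
  induction L using ListBlank.induction_on with
  | h l => rfl

theorem AMTM_cB_mod (k : ℕ) (enc : Γ → ℕ) (h0 : enc default = 0) (hk : ∀ a, enc a < k)
    (L : ListBlank Γ) : AMTM_cB k enc h0 L % k = enc L.head := by
  rw [← ListBlank.cons_head_tail L, AMTM_cB_cons, ListBlank.head_cons, Nat.mul_add_mod,
    Nat.mod_eq_of_lt (hk _)]

theorem AMTM_cB_div (k : ℕ) (enc : Γ → ℕ) (h0 : enc default = 0) (hk : ∀ a, enc a < k)
    (L : ListBlank Γ) : AMTM_cB k enc h0 L / k = AMTM_cB k enc h0 L.tail := by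
  rw [← ListBlank.cons_head_tail L, AMTM_cB_cons, ListBlank.tail_cons,
    Nat.mul_add_div (by have := hk default; omega), Nat.div_eq_of_lt (hk _), Nat.add_zero]

end

/-! ## The machine -/

section

variable {Γ Λ : Type} [Inhabited Γ] [Inhabited Λ]

/-- states: halting, start, pop; padding; `(q, a, d)` -/
abbrev AMTM_T (S : Finset Λ) (k : ℕ) : Type := Fin 3 ⊕ Fin k ⊕ (↥S × Fin k × Bool)

variable (M : TM0.Machine Γ Λ) (S : Finset Λ) (hS : TM0.Supports M ↑S) (k : ℕ) (hk : 0 < k)
  (enc : Γ → ℕ)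

/-- the state as an element of `S` -/
noncomputable def AMTM_in (q : Λ) : ↥S :=
  haveI := Classical.propDecidable (q ∈ S)
  if h : q ∈ S then ⟨q, h⟩ else ⟨default, hS.1⟩

/-- the state `(q, a, d)` -/
noncomputable def AMTM_st (q : Λ) (a : ℕ) (d : Bool) : AMTM_T S k :=
  Sum.inr (Sum.inr (AMTM_in M S hS q, ⟨a % k, Nat.mod_lt _ hk⟩, d))

/-- `true` is the right direction -/
def AMTM_dir : Dir → Bool
  | Dir.left => false
  | Dir.right => true

/-- transition function -/
noncomputable def AMTM_d : AMTM_T S k → ℕ → AMTM_T S k × Bool × Bool × ℕ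
  | Sum.inl j, r => if j = 1 then (Sum.inl 2, true, false, 0)
      else if j = 2 then (AMTM_st M S hS k hk default r false, false, false, 0)
      else (Sum.inl 0, true, false, 0)
  | Sum.inr (Sum.inl _), _ => (Sum.inl 0, true, false, 0)
  | Sum.inr (Sum.inr (q, a, d)), r =>
    match M q.1 (Function.invFun enc a.1) with
    | none => (Sum.inl 0, true, false, 0)
    | some (q', TM0.Stmt.write b) => (AMTM_st M S hS k hk q' (enc b) (!d), true, false, 0)
    | some (q', TM0.Stmt.move dr) =>
      if AMTM_dir dr = d then (AMTM_st M S hS k hk q' r (!d), false, true, a.1)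
      else (AMTM_st M S hS k hk q.1 a.1 (!d), true, false, 0)

omit [Inhabited Γ] in
theorem AMTM_st_eq (q : Λ) (hq : q ∈ S) (a : ℕ) (ha : a < k) (d : Bool) :
    AMTM_st M S hS k hk q a d = Sum.inr (Sum.inr (⟨q, hq⟩, ⟨a, ha⟩, d)) := by
  unfold AMTM_st AMTM_in
  rw [dif_pos hq]
  simp only [Nat.mod_eq_of_lt ha]

variable (hinj : Function.Injective enc) (hek : ∀ a, enc a < k) (h0 : enc default = 0)

/-- the configuration of the two-number machine -/
noncomputable def AMTM_cfg (c : TM0.Cfg Γ Λ) (d : Bool) : AMTM_T S k × ℕ × ℕ :=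
  (AMTM_st M S hS k hk c.q (enc c.Tape.head) d,
    if d then (AMTM_cB k enc h0 c.Tape.left, AMTM_cB k enc h0 c.Tape.right)
    else (AMTM_cB k enc h0 c.Tape.right, AMTM_cB k enc h0 c.Tape.left))

include hinj hek in
theorem AMTM_step_none (c : TM0.Cfg Γ Λ) (hc : c.q ∈ S) (d : Bool)
    (h : TM0.step M c = none) :
    (AMTM_g k (AMTM_d M S hS k hk enc) (AMTM_cfg M S hS k hk enc h0 c d)).1 = Sum.inl 0 := by
  obtain ⟨q, T⟩ := c
  have h1 : M q T.head = none := by
    unfold TM0.step at h
    simpa using h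
  have h2 : Function.invFun enc (enc T.head) = T.head := Function.leftInverse_invFun hinj _
  unfold AMTM_g AMTM_cfg
  simp only [AMTM_st_eq M S hS k hk q hc _ (hek _), AMTM_d, h2, h1]

include hinj hek in
theorem AMTM_step_write (q : Λ) (T : Tape Γ) (hc : q ∈ S) (d : Bool) (q' : Λ) (b : Γ)
    (h : M q T.head = some (q', TM0.Stmt.write b)) :
    AMTM_g k (AMTM_d M S hS k hk enc) (AMTM_cfg M S hS k hk enc h0 ⟨q, T⟩ d) =
      AMTM_cfg M S hS k hk enc h0 ⟨q', T.write b⟩ (!d) := by
  have h2 : Function.invFun enc (enc T.head) = T.head := Function.leftInverse_invFun hinj _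
  obtain ⟨a, L, R⟩ := T
  unfold AMTM_g AMTM_cfg
  simp only [AMTM_st_eq M S hS k hk q hc _ (hek _), AMTM_d, h2, h]
  cases d <;> simp [Tape.write]

include hinj hek in
theorem AMTM_step_swap (q : Λ) (T : Tape Γ) (hc : q ∈ S) (d : Bool) (q' : Λ) (dr : Dir)
    (h : M q T.head = some (q', TM0.Stmt.move dr)) (hd : AMTM_dir dr ≠ d) :
    AMTM_g k (AMTM_d M S hS k hk enc) (AMTM_cfg M S hS k hk enc h0 ⟨q, T⟩ d) =
      AMTM_cfg M S hS k hk enc h0 ⟨q, T⟩ (!d) := by
  have h2 : Function.invFun enc (enc T.head) = T.head := Function.leftInverse_invFun hinj _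
  obtain ⟨a, L, R⟩ := T
  unfold AMTM_g AMTM_cfg
  simp only [AMTM_st_eq M S hS k hk q hc _ (hek _), AMTM_d, h2, h, if_neg hd]
  cases d <;> simp

include hinj hek in
theorem AMTM_step_pop (q : Λ) (T : Tape Γ) (hc : q ∈ S) (d : Bool) (q' : Λ) (dr : Dir)
    (h : M q T.head = some (q', TM0.Stmt.move dr)) (hd : AMTM_dir dr = d) :
    AMTM_g k (AMTM_d M S hS k hk enc) (AMTM_cfg M S hS k hk enc h0 ⟨q, T⟩ d) =
      AMTM_cfg M S hS k hk enc h0 ⟨q', T.move dr⟩ (!d) := by
  have h2 : Function.invFun enc (enc T.head) = T.head := Function.leftInverse_invFun hinj _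
  obtain ⟨a, L, R⟩ := T
  subst hd
  unfold AMTM_g AMTM_cfg
  simp only [AMTM_st_eq M S hS k hk q hc _ (hek _), AMTM_d, h2, h]
  cases dr <;> simp [AMTM_dir, Tape.move, AMTM_cB_mod k enc h0 hek, AMTM_cB_div k enc h0 hek,
    AMTM_cB_cons]

theorem AMTM_cfg_ne (c : TM0.Cfg Γ Λ) (d : Bool) :
    ¬ (AMTM_cfg M S hS k hk enc h0 c d).1 = Sum.inl 0 := by
  unfold AMTM_cfg AMTM_st
  simp

include hinj hek in
theorem AMTM_resp : StateTransition.Respects (TM0.step M)
    (AMTM_f (AMTM_g k (AMTM_d M S hS k hk enc)) (fun c => c.1 = Sum.inl 0))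
    (fun c x => c.q ∈ S ∧ ∃ d, AMTM_cfg M S hS k hk enc h0 c d = x) := by
  rintro c x ⟨hc, d, rfl⟩
  cases hst : TM0.step M c with
  | none =>
    exact AMTM_f_none.2 (AMTM_step_none M S hS k hk enc hinj hek h0 c hc d hst)
  | some c' =>
    have hc' : c'.q ∈ S := TM0.step_supports M hS hst hc
    obtain ⟨q, T⟩ := c
    have one : ∀ (c : TM0.Cfg Γ Λ) (d : Bool) (c' : TM0.Cfg Γ Λ) (d' : Bool),
        AMTM_g k (AMTM_d M S hS k hk enc) (AMTM_cfg M S hS k hk enc h0 c d) =
          AMTM_cfg M S hS k hk enc h0 c' d' →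
        AMTM_cfg M S hS k hk enc h0 c' d' ∈
          AMTM_f (AMTM_g k (AMTM_d M S hS k hk enc)) (fun c => c.1 = Sum.inl 0)
            (AMTM_cfg M S hS k hk enc h0 c d) := by
      intro c d c' d' h
      have hne : ¬ (AMTM_g k (AMTM_d M S hS k hk enc)
          (AMTM_cfg M S hS k hk enc h0 c d)).1 = Sum.inl 0 := by
        rw [h]
        exact AMTM_cfg_ne M S hS k hk enc h0 c' d'
      rw [AMTM_f_some hne, h]
      rfl
    unfold TM0.step at hst
    cases hM : M q T.head with
    | none => simp [hM] at hst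
    | some qs =>
      obtain ⟨q', s⟩ := qs
      cases s with
      | write b =>
        simp only [hM, Option.map_some, Option.some.injEq] at hst
        subst hst
        exact ⟨_, ⟨hc', !d, rfl⟩, Relation.TransGen.single (one _ _ _ _
          (AMTM_step_write M S hS k hk enc hinj hek h0 q T hc d q' b hM))⟩
      | move dr =>
        simp only [hM, Option.map_some, Option.some.injEq] at hst
        subst hst
        by_cases hd : AMTM_dir dr = d
        · exact ⟨_, ⟨hc', !d, rfl⟩, Relation.TransGen.single (one _ _ _ _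
            (AMTM_step_pop M S hS k hk enc hinj hek h0 q T hc d q' dr hM hd))⟩
        · have hd' : AMTM_dir dr = !d := by
            cases d <;> cases hx : AMTM_dir dr <;> simp_all
          refine ⟨_, ⟨hc', !!d, rfl⟩, Relation.TransGen.tail
            (b := AMTM_cfg M S hS k hk enc h0 ⟨q, T⟩ (!d)) (Relation.TransGen.single ?_) ?_⟩
          · exact one _ _ _ _ (AMTM_step_swap M S hS k hk enc hinj hek h0 q T hc d q' dr hM hd)
          · exact one _ _ _ _
              (AMTM_step_pop M S hS k hk enc hinj hek h0 q T hc (!d) q' dr hM hd')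

end

theorem st_AMTM : ST_AMTM := by
  intro Γ Λ _ _ M S k enc hS hk hinj hek h0
  have hk0 : 0 < k := by omega
  obtain ⟨Q0, q0, qh, tab, hok, hh⟩ := AMTM_table k hk (AMTM_d M S hS k hk0 enc) (by
      intro t r hr
      obtain j | j | ⟨q, a, d⟩ := t
      · simp only [AMTM_d]
        split_ifs <;> exact hk0
      · exact hk0
      · simp only [AMTM_d]
        split
        · exact hk0
        · exact hk0
        · split_ifs
          · exact a.2
          · exact hk0) (by
      rw [Fintype.card_sum, Fintype.card_sum, Fintype.card_fin, Fintype.card_fin]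
      omega) (Sum.inl 1) (Sum.inl 0)
  refine ⟨Q0, q0, qh, tab, hok, ?_⟩
  intro l
  rw [hh]
  have e1 : (TM0.eval M l).Dom ↔ (StateTransition.eval (TM0.step M) (TM0.init l)).Dom := Iff.rfl
  rw [e1, ← StateTransition.tr_eval_dom (AMTM_resp M S hS k hk0 enc hinj hek h0)
    (a₂ := AMTM_cfg M S hS k hk0 enc h0 (TM0.init l) false) ⟨hS.1, false, rfl⟩, AMTM_dom]
  have e2 : (AMTM_g k (AMTM_d M S hS k hk0 enc))^[2] (Sum.inl 1, codeL k (l.map enc), 0) =
      AMTM_cfg M S hS k hk0 enc h0 (TM0.init l) false := by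
    have e3 : AMTM_cB k enc h0 (ListBlank.mk l) = codeL k (l.map enc) := rfl
    have e4 : AMTM_cB k enc h0 (ListBlank.mk []) = 0 := rfl
    rw [← e3]
    have hm := AMTM_cB_mod k enc h0 hek (ListBlank.mk l)
    have hdv := AMTM_cB_div k enc h0 hek (ListBlank.mk l)
    simp only [Function.iterate_succ_apply, Function.iterate_zero_apply]
    unfold AMTM_g AMTM_cfg TM0.init Tape.mk₁ Tape.mk₂ Tape.mk'
    simp [AMTM_d, hm, hdv, e4]
  constructor
  · rintro ⟨t, ht⟩
    have ht2 : 3 ≤ t := by
      by_contra hlt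
      have : t = 0 ∨ t = 1 ∨ t = 2 := by omega
      rcases this with rfl | rfl | rfl
      · simp at ht
      · simp [AMTM_g, AMTM_d] at ht
      · rw [e2] at ht
        exact AMTM_cfg_ne M S hS k hk0 enc h0 _ _ ht
    refine ⟨t - 3, ?_⟩
    rw [← e2, ← Function.iterate_add_apply]
    have : t - 3 + 1 + 2 = t := by omega
    rw [this]
    exact ht
  · rintro ⟨t, ht⟩
    refine ⟨t + 1 + 2, ?_⟩
    rw [Function.iterate_add_apply, e2]
    exact ht

end PCP4
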